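import Pool.Agent.TH294.RG.Fam

/-!
# The excess of fourth order statistics of Laplace eigenfunctions on surfaces (MP_4fa179_mp)

A Riemannian surface in isothermal coordinates: an open set `Ω ⊆ ℂ` with the metric `ρ |dz|²`,
area measure `ρ dx dy`. `dx f z`, `dy f z` are the partial derivatives `fderiv ℝ f z 1`,
`fderiv ℝ f z I`, and `lap f = dx (dx f) + dy (dy f)`; `TF Ω φ` says that `φ : ℂ → ℝ` is smooth
with compact support contained in `Ω`.

In the metric rescaled by `λ` the operator `D = (λ ρ)^{-1/2} (∂x - i ∂y)` is the derivative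
`∂_1 - i ∂_2` in the conformal orthonormal frame; at a unit momentum of direction `α` its symbol is
`sym α = i exp(-iα)`. The functions `W k` (`k ∈ ℤ`) are the local field `u` with the Fourier
multiplier `(sym α)^k`. The hypothesis `hsc` says that `u n` has the semiclassical measure
`m(z) ν_z(dα) dvol(z)` on the unit cosphere bundle over `Ω`. Quantum ergodicity is the case `m = 1`,
`ν_z` uniform. The hypothesis `hpar` says that `ν_z` has no atoms modulo `π`.
-/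

set_option autoImplicit false
open MeasureTheory Filter Topology Complex ProbabilityTheory
open scoped ContDiff ENNReal

namespace Pool.Agent.Results.MP_4fa179_mp.FourthOrderExcess

open Pool.Agent.W745.RW

/-- the normalised frame derivative `(λ ρ)^{-1/2} (∂x - i ∂y)` -/
noncomputable def D (ρ : ℂ → ℝ) (lam : ℝ) (f : ℂ → ℂ) (z : ℂ) : ℂ :=
  ((1 / √(lam * ρ z) : ℝ) : ℂ) * (dx f z - I * dy f z)

/-- the symbol of `D` at a unit momentum of direction `α` -/
noncomputable def sym (α : ℝ) : ℂ := I * Complex.exp (-(α : ℂ) * I)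

/-- the probability that two independent directions of law `ν` are parallel (equal or opposite) -/
noncomputable def parallel (ν : Measure ℝ) : ℝ :=
  (ν.prod ν).real {p | Real.sin (p.1 - p.2) = 0}

/-- `W k = D^k u` for `k ≥ 0` and `W k = (-1)^k conj (D^|k| u)` for `k < 0` -/
noncomputable def W (ρ : ℂ → ℝ) (lam : ℝ) (u : ℂ → ℝ) : ℤ → ℂ → ℂ
  | Int.ofNat k => (D ρ lam)^[k] (fun w => (u w : ℂ))
  | Int.negSucc k => fun z => (-1) ^ (k + 1) *
      (starRingEnd ℂ) ((D ρ lam)^[k + 1] (fun w => (u w : ℂ)) z)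

/-- covariance of `W a`, `W b` at `z` for the Gaussian wave with covariance measure `m(z) ν_z`:
`(-1)^a m(z) ∫ (sym α)^(a+b) dν_z(α)` for even `a + b`, and `0` for odd `a + b` -/
noncomputable def C (m : ℂ → ℝ) (ν : Kernel ℂ ℝ) (a b : ℤ) (z : ℂ) : ℂ :=
  if Even (a + b) then (-1) ^ a.natAbs * ((m z : ℂ) * ∫ α, sym α ^ (a + b) ∂(ν z)) else 0

/-- the Gaussian fourth moment `E[W a W b W c W d]` at `z` -/
noncomputable def G (m : ℂ → ℝ) (ν : Kernel ℂ ℝ) (g : ℤ × ℤ × ℤ × ℤ) (z : ℂ) : ℂ :=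
  C m ν g.1 g.2.1 z * C m ν g.2.2.1 g.2.2.2 z + C m ν g.1 g.2.2.1 z * C m ν g.2.1 g.2.2.2 z +
    C m ν g.1 g.2.2.2 z * C m ν g.2.1 g.2.2.1 z

/-- `0` for an odd sum, `1` if the four integers have the same parity, `-1/3` otherwise -/
noncomputable def ep (g : ℤ × ℤ × ℤ × ℤ) : ℂ :=
  if Even (g.1 + g.2.1 + g.2.2.1 + g.2.2.2) then
    (if g.1 % 2 = g.2.1 % 2 ∧ g.2.1 % 2 = g.2.2.1 % 2 ∧ g.2.2.1 % 2 = g.2.2.2 % 2 then 1
      else -(1 / 3)) else 0

/-- the fourth moment `E[W a W b W c W d]` of the plane wave of direction `α` with uniform random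
phase, normalised so that its fourth moment is `1` -/
noncomputable def pw (g : ℤ × ℤ × ℤ × ℤ) (α : ℝ) : ℂ :=
  ep g * sym α ^ (g.1 + g.2.1 + g.2.2.1 + g.2.2.2)

/-- **Result.** Let `u n` be real solutions of `Δu + λ_n u = 0` for the metric `ρ |dz|²` on `Ω`
(that is `lap u + λ_n ρ u = 0`), `λ_n → ∞`, with semiclassical measure `m(z) ν_z dvol(z)`, `m`
locally square integrable and `ν_z` without atoms modulo `π`. Let `K ⊆ Ω` be compact, `φ ≥ 0` a
test function supported in its interior, `c g` complex coefficients, `g ∈ S`, and let `A` bound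
the absolute value of the combination `∑ c g E[W a W b W c W d]` for all plane waves (random phase,
fourth moment `1`). Then for all large `n` the deviation of the same combination of local fourth
moments of the eigenfunctions from its Gaussian value is at most `A` times the excess
`∫ φ u⁴ dvol - 3 ∫ φ m² dvol`, up to an error `ε (1 + ∫_K u⁴)`. -/
theorem result (Ω : Set ℂ) (hΩ : IsOpen Ω) (ρ : ℂ → ℝ) (hρ : ContDiffOn ℝ ∞ ρ Ω)
    (hρ0 : ∀ z ∈ Ω, 0 < ρ z) (lam : ℕ → ℝ) (hpos : ∀ n, 0 < lam n)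
    (hlam : Tendsto lam atTop atTop) (u : ℕ → ℂ → ℝ) (hu : ∀ n, ContDiffOn ℝ ∞ (u n) Ω)
    (heq : ∀ n, ∀ z ∈ Ω, lap (u n) z + lam n * (ρ z * u n z) = 0)
    (m : ℂ → ℝ) (hm : ∀ K : Set ℂ, IsCompact K → K ⊆ Ω → MemLp m 2 (volume.restrict K))
    (ν : Kernel ℂ ℝ) [IsMarkovKernel ν]
    (hsc : ∀ φ, TF Ω φ → ∀ k : ℕ, Tendsto (fun n => ∫ z, ((φ z * ρ z : ℝ) : ℂ) *
      ((u n z : ℂ) * (D ρ (lam n))^[k] (fun w => (u n w : ℂ)) z)) atTop
      (𝓝 (∫ z, ((φ z * ρ z : ℝ) : ℂ) * ((m z : ℂ) * ∫ α, sym α ^ k ∂(ν z)))))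
    (hpar : ∀ᵐ z ∂(volume.restrict Ω), parallel (ν z) = 0)
    (K : Set ℂ) (hK : IsCompact K) (hKΩ : K ⊆ Ω) (φ : ℂ → ℝ) (hφ : TF (interior K) φ)
    (hφ0 : ∀ z, 0 ≤ φ z) (S : Finset (ℤ × ℤ × ℤ × ℤ)) (c : ℤ × ℤ × ℤ × ℤ → ℂ) (A : ℝ)
    (hA : ∀ α : ℝ, ‖∑ g ∈ S, c g * pw g α‖ ≤ A) (ε : ℝ) (hε : 0 < ε) :
    ∀ᶠ n in atTop, ‖∑ g ∈ S, c g * ((∫ z, ((φ z * ρ z : ℝ) : ℂ) * (W ρ (lam n) (u n) g.1 z *
        W ρ (lam n) (u n) g.2.1 z * W ρ (lam n) (u n) g.2.2.1 z * W ρ (lam n) (u n) g.2.2.2 z))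
      - ∫ z, ((φ z * ρ z : ℝ) : ℂ) * G m ν g z)‖ ≤
      A * ((∫ z, φ z * ρ z * u n z ^ 4) - 3 * ∫ z, φ z * ρ z * m z ^ 2) +
        ε * (1 + ∫ z in K, u n z ^ 4) := by
  have hW : ∀ n k, W ρ (lam n) (u n) k = Pool.Agent.TH294.RS.WW ρ (lam n) (u n) k := by
    intro n k
    cases k with
    | ofNat k => rfl
    | negSucc k => rfl
  have H := Pool.Agent.TH294.RG.rawG_met (M := Pool.Agent.TH294.RG.MM m
    Pool.Agent.TH294.RG.ea ν) hΩ hpos hlam hρ hρ0 hu heq hsc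
  have hp : ∀ᵐ z ∂(volume.restrict Ω), Pool.Agent.TH294.RG.par Pool.Agent.TH294.RG.ea (ν z) = 0 := by
    filter_upwards [hpar] with z hz
    simp only [Pool.Agent.TH294.RG.par, Pool.Agent.TH294.RG.ea_par]
    exact hz
  have hφ' : TF (interior K) (fun z => φ z * ρ z) :=
    Pool.Agent.TH294.RS.TF.mulc isOpen_interior hφ (hρ.mono (interior_subset.trans hKΩ))
  have hφ0' : ∀ z, 0 ≤ φ z * ρ z := by
    intro z
    by_cases hz : z ∈ interior K
    · exact mul_nonneg (hφ0 z) (hρ0 z (hKΩ (interior_subset hz))).le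
    · rw [Pool.Agent.TH294.RS.TF.zero hφ hz]; simp
  have hep : ∀ g : ℤ × ℤ × ℤ × ℤ, ep g = Pool.Agent.TH294.RG.ep2 g.1 g.2.1 g.2.2.1 g.2.2.2 := by
    intro g; rfl
  have key := Pool.Agent.TH294.RG.fam_rel hm hp H hK hKΩ hφ' hφ0' S c (fun g => g) (C := A)
    (fun ζ hζ => by
      have e1 : sym (Real.pi / 2 - Complex.arg ζ) = ζ := by
        have h1 : ζ = Complex.exp ((Complex.arg ζ : ℂ) * I) := by
          have := Complex.norm_mul_exp_arg_mul_I ζ
          rw [hζ] at this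
          simpa using this.symm
        have h2 : Complex.exp ((Real.pi : ℂ) / 2 * I) = I := Complex.exp_pi_div_two_mul_I
        unfold sym
        conv_rhs => rw [h1]
        rw [show -((Real.pi / 2 - Complex.arg ζ : ℝ) : ℂ) * I = (Complex.arg ζ : ℂ) * I -
          (Real.pi : ℂ) / 2 * I by push_cast; ring, Complex.exp_sub, h2]
        field_simp
      have h2 := hA (Real.pi / 2 - Complex.arg ζ)
      simp only [pw, e1, hep] at h2
      exact h2) hε
  have hG : ∀ g z, G m ν g z = Pool.Agent.TH294.RG.GG' (Pool.Agent.TH294.RG.MM m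
      Pool.Agent.TH294.RG.ea ν) g.1 g.2.1 g.2.2.1 g.2.2.2 z := by
    intro g z
    simp only [Pool.Agent.TH294.RG.GG', Pool.Agent.TH294.RG.cc_C2]
    rfl
  refine key.mono fun n hn => ?_
  have e1 : ∀ k z, Pool.Agent.TH294.RG.W1 (fun z => 1 / √(ρ z)) (1 / √(lam n)) (u n) k z =
      W ρ (lam n) (u n) k z := by
    intro k z
    rw [hW, Pool.Agent.TH294.RG.W1_eq (fun z => 1 / √(ρ z)) (fun n => 1 / √(lam n)) u k n z,
      Pool.Agent.TH294.RS.WW_eq ρ hpos u]
  simp only [e1] at hn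
  simp only [hG, mul_sub, Finset.sum_sub_distrib]
  linarith

end Pool.Agent.Results.MP_4fa179_mp.FourthOrderExcess
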