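import Pool.Agent.TH294.RG.Fo

/-!
# Fourth order local statistics of Laplace eigenfunctions on surfaces (MP_4fa179_mp)

A Riemannian surface in isothermal coordinates: an open set `Ω ⊆ ℂ` with the metric `ρ |dz|²`,
area measure `ρ dx dy`. `dx f z`, `dy f z` are the partial derivatives `fderiv ℝ f z 1`,
`fderiv ℝ f z I`, and `lap f = dx (dx f) + dy (dy f)`; `TF Ω φ` says that `φ : ℂ → ℝ` is smooth
with compact support contained in `Ω`.

In the metric rescaled by `λ` the operator `D = (λ ρ)^{-1/2} (∂x - i ∂y)` is the derivative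
`∂_1 - i ∂_2` in the conformal orthonormal frame; at a unit momentum of direction `α` its symbol is
`sym α = i exp(-iα)`. The functions `W k` (`k ∈ ℤ`) are the local field `u` with the Fourier
multiplier `(sym α)^k`. The hypothesis `hsc` says that `u n` has the semiclassical measure
`m(z) ν_z(dα) dvol(z)` on the unit cosphere bundle over `Ω`. Quantum ergodicity is the case `m = 1`,
`ν_z` uniform.
-/

set_option autoImplicit false
open MeasureTheory Filter Topology Complex ProbabilityTheory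
open scoped ContDiff ENNReal

namespace Pool.Agent.Results.MP_4fa179_mp.FourthOrderRigidity

open Pool.Agent.W745.RW

/-- the normalised frame derivative `(λ ρ)^{-1/2} (∂x - i ∂y)` -/
noncomputable def D (ρ : ℂ → ℝ) (lam : ℝ) (f : ℂ → ℂ) (z : ℂ) : ℂ :=
  ((1 / √(lam * ρ z) : ℝ) : ℂ) * (dx f z - I * dy f z)

/-- the symbol of `D` at a unit momentum of direction `α` -/
noncomputable def sym (α : ℝ) : ℂ := I * Complex.exp (-(α : ℂ) * I)

/-- `W k = D^k u` for `k ≥ 0` and `W k = (-1)^k conj (D^|k| u)` for `k < 0` -/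
noncomputable def W (ρ : ℂ → ℝ) (lam : ℝ) (u : ℂ → ℝ) : ℤ → ℂ → ℂ
  | Int.ofNat k => (D ρ lam)^[k] (fun w => (u w : ℂ))
  | Int.negSucc k => fun z => (-1) ^ (k + 1) *
      (starRingEnd ℂ) ((D ρ lam)^[k + 1] (fun w => (u w : ℂ)) z)

/-- covariance of `W a`, `W b` at `z` for the Gaussian wave with covariance measure `m(z) ν_z`:
`(-1)^a m(z) ∫ (sym α)^(a+b) dν_z(α)` for even `a + b`, and `0` for odd `a + b` -/
noncomputable def C (m : ℂ → ℝ) (ν : Kernel ℂ ℝ) (a b : ℤ) (z : ℂ) : ℂ :=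
  if Even (a + b) then (-1) ^ a.natAbs * ((m z : ℂ) * ∫ α, sym α ^ (a + b) ∂(ν z)) else 0

/-- the Gaussian fourth moment `E[W a W b W c W d]` at `z` -/
noncomputable def G (m : ℂ → ℝ) (ν : Kernel ℂ ℝ) (a b c d : ℤ) (z : ℂ) : ℂ :=
  C m ν a b z * C m ν c d z + C m ν a c z * C m ν b d z + C m ν a d z * C m ν b c z

/-- `1` if the four integers have the same parity, `-1/3` otherwise -/
noncomputable def ep (a b c d : ℤ) : ℂ :=
  if a % 2 = b % 2 ∧ b % 2 = c % 2 ∧ c % 2 = d % 2 then 1 else -(1 / 3)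

/-- **Result.** Let `u n` be real solutions of `Δu + λ_n u = 0` for the metric `ρ |dz|²` on `Ω`
(that is `lap u + λ_n ρ u = 0`), `λ_n → ∞`, with semiclassical measure `m(z) ν_z dvol(z)`, `m`
locally square integrable. Let `K ⊆ Ω` be compact, `φ` a test function supported in its interior,
and `a + b + c + d = 0`. Then the local fourth moment of `(W a, W b, W c, W d)` minus `ep a b c d`
times the local fourth moment of `u` is, up to an error `o(1 + ∫_K u⁴)`, the value of this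
difference for the Gaussian wave with the same covariances. -/
theorem result (Ω : Set ℂ) (hΩ : IsOpen Ω) (ρ : ℂ → ℝ) (hρ : ContDiffOn ℝ ∞ ρ Ω)
    (hρ0 : ∀ z ∈ Ω, 0 < ρ z) (lam : ℕ → ℝ) (hpos : ∀ n, 0 < lam n)
    (hlam : Tendsto lam atTop atTop) (u : ℕ → ℂ → ℝ) (hu : ∀ n, ContDiffOn ℝ ∞ (u n) Ω)
    (heq : ∀ n, ∀ z ∈ Ω, lap (u n) z + lam n * (ρ z * u n z) = 0)
    (m : ℂ → ℝ) (hm : ∀ K : Set ℂ, IsCompact K → K ⊆ Ω → MemLp m 2 (volume.restrict K))
    (ν : Kernel ℂ ℝ) [IsMarkovKernel ν]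
    (hsc : ∀ φ, TF Ω φ → ∀ k : ℕ, Tendsto (fun n => ∫ z, ((φ z * ρ z : ℝ) : ℂ) *
      ((u n z : ℂ) * (D ρ (lam n))^[k] (fun w => (u n w : ℂ)) z)) atTop
      (𝓝 (∫ z, ((φ z * ρ z : ℝ) : ℂ) * ((m z : ℂ) * ∫ α, sym α ^ k ∂(ν z)))))
    (K : Set ℂ) (hK : IsCompact K) (hKΩ : K ⊆ Ω) (φ : ℂ → ℝ) (hφ : TF (interior K) φ)
    (a b c d : ℤ) (hs : a + b + c + d = 0) :
    Tendsto (fun n => ((∫ z, ((φ z * ρ z : ℝ) : ℂ) * (W ρ (lam n) (u n) a z *
        W ρ (lam n) (u n) b z * W ρ (lam n) (u n) c z * W ρ (lam n) (u n) d z))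
      - ep a b c d * ((∫ z, φ z * ρ z * u n z ^ 4 : ℝ) : ℂ)
      - ∫ z, ((φ z * ρ z : ℝ) : ℂ) * (G m ν a b c d z - 3 * ep a b c d * (m z : ℂ) ^ 2)) /
      ((1 + ∫ z in K, u n z ^ 4 : ℝ) : ℂ)) atTop (𝓝 0) := by
  have hW : ∀ n k, W ρ (lam n) (u n) k = Pool.Agent.TH294.RS.WW ρ (lam n) (u n) k := by
    intro n k
    cases k with
    | ofNat k => rfl
    | negSucc k => rfl
  have key := Pool.Agent.TH294.RG.fo hΩ hρ hρ0 hpos hlam hu heq hm (ν := ν) hsc hK hKΩ hφ a b c d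
    hs
  simp only [hW]
  exact key

end Pool.Agent.Results.MP_4fa179_mp.FourthOrderRigidity
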