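import Pool.Agent.TH421.AZ.Main

/-!
# Small values of Laplace eigenfunctions on surfaces and the fourth moment (MP_4fa179_mp)

A Riemannian surface in isothermal coordinates: an open set `Ω ⊆ ℂ` with the metric `ρ |dz|²`,
area measure `ρ dx dy`. `dx f z`, `dy f z` are the partial derivatives `fderiv ℝ f z 1`,
`fderiv ℝ f z I`, and `lap f = dx (dx f) + dy (dy f)`; `TF Ω φ` says that `φ : ℂ → ℝ` is smooth
with compact support contained in `Ω`.

In the metric rescaled by `λ` the operator `D = (λ ρ)^{-1/2} (∂x - i ∂y)` is the derivative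
`∂_1 - i ∂_2` in the conformal orthonormal frame; at a unit momentum of direction `α` its symbol is
`sym α = i exp(-iα)`. The hypothesis `hsc` says that `u n` has the semiclassical measure
`m(z) ν_z(dα) dvol(z)` on the unit cosphere bundle over `Ω`. Quantum ergodicity is the case `m = 1`,
`ν_z` uniform. The hypothesis `hpar` says that `ν_z` has no atoms modulo `π`.
-/

set_option autoImplicit false
open MeasureTheory Filter Topology Complex ProbabilityTheory
open scoped ContDiff ENNReal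

namespace Pool.Agent.Results.MP_4fa179_mp.SmallValues

open Pool.Agent.W745.RW

/-- the normalised frame derivative `(λ ρ)^{-1/2} (∂x - i ∂y)` -/
noncomputable def D (ρ : ℂ → ℝ) (lam : ℝ) (f : ℂ → ℂ) (z : ℂ) : ℂ :=
  ((1 / √(lam * ρ z) : ℝ) : ℂ) * (dx f z - I * dy f z)

/-- the symbol of `D` at a unit momentum of direction `α` -/
noncomputable def sym (α : ℝ) : ℂ := I * Complex.exp (-(α : ℂ) * I)

/-- the probability that two independent directions of law `ν` are parallel (equal or opposite) -/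
noncomputable def parallel (ν : Measure ℝ) : ℝ :=
  (ν.prod ν).real {p | Real.sin (p.1 - p.2) = 0}

/-- **Result.** Let `u n` be real solutions of `Δu + λ_n u = 0` for the metric `ρ |dz|²` on `Ω`
(that is `lap u + λ_n ρ u = 0`), `λ_n → ∞`, with semiclassical measure `m(z) ν_z dvol(z)`, `m`
locally square integrable and `ν_z` without atoms modulo `π`. Let `K ⊆ Ω` be compact and `φ ≥ 0`
a test function supported in the interior of `K`. Then for every `ε > 0` there is `s > 0` such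
that, for all large `n`, the square of `∫ φ m dvol` is at most `∫_{|u n| > s} φ dvol` times
`∫ φ (u n)⁴ dvol - 2 ∫ φ m² dvol`, up to an error `ε (1 + ∫_K u⁴)`. -/
theorem result (Ω : Set ℂ) (hΩ : IsOpen Ω) (ρ : ℂ → ℝ) (hρ : ContDiffOn ℝ ∞ ρ Ω)
    (hρ0 : ∀ z ∈ Ω, 0 < ρ z) (lam : ℕ → ℝ) (hpos : ∀ n, 0 < lam n)
    (hlam : Tendsto lam atTop atTop) (u : ℕ → ℂ → ℝ) (hu : ∀ n, ContDiffOn ℝ ∞ (u n) Ω)
    (heq : ∀ n, ∀ z ∈ Ω, lap (u n) z + lam n * (ρ z * u n z) = 0)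
    (m : ℂ → ℝ) (hm : ∀ K : Set ℂ, IsCompact K → K ⊆ Ω → MemLp m 2 (volume.restrict K))
    (ν : Kernel ℂ ℝ) [IsMarkovKernel ν]
    (hsc : ∀ φ, TF Ω φ → ∀ k : ℕ, Tendsto (fun n => ∫ z, ((φ z * ρ z : ℝ) : ℂ) *
      ((u n z : ℂ) * (D ρ (lam n))^[k] (fun w => (u n w : ℂ)) z)) atTop
      (𝓝 (∫ z, ((φ z * ρ z : ℝ) : ℂ) * ((m z : ℂ) * ∫ α, sym α ^ k ∂(ν z)))))
    (hpar : ∀ᵐ z ∂(volume.restrict Ω), parallel (ν z) = 0)
    (K : Set ℂ) (hK : IsCompact K) (hKΩ : K ⊆ Ω)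
    (φ : ℂ → ℝ) (hφ : TF (interior K) φ) (hφ0 : ∀ z, 0 ≤ φ z) (ε : ℝ) (hε : 0 < ε) :
    ∃ s : ℝ, 0 < s ∧ ∀ᶠ n in atTop, (∫ z, φ z * ρ z * m z) ^ 2 ≤
      (∫ z in {z | z ∈ Ω ∧ s < |u n z|}, φ z * ρ z) *
        ((∫ z, φ z * ρ z * u n z ^ 4) - 2 * ∫ z, φ z * ρ z * m z ^ 2) +
          ε * (1 + ∫ z in K, u n z ^ 4) := by
  have H := Pool.Agent.TH294.RG.rawG_met (M := Pool.Agent.TH294.RG.MM m
    Pool.Agent.TH294.RG.ea ν) hΩ hpos hlam hρ hρ0 hu heq hsc
  have hp : ∀ᵐ z ∂(volume.restrict Ω), Pool.Agent.TH294.RG.par Pool.Agent.TH294.RG.ea (ν z) = 0 := by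
    filter_upwards [hpar] with z hz
    simp only [Pool.Agent.TH294.RG.par, Pool.Agent.TH294.RG.ea_par]
    exact hz
  have hφ' : TF (interior K) (fun z => φ z * ρ z) :=
    Pool.Agent.TH294.RS.TF.mulc isOpen_interior hφ (hρ.mono (interior_subset.trans hKΩ))
  have hφ0' : ∀ z, 0 ≤ φ z * ρ z := by
    intro z
    by_cases hz : z ∈ interior K
    · exact mul_nonneg (hφ0 z) (hρ0 z (hKΩ (interior_subset hz))).le
    · rw [Pool.Agent.TH294.RS.TF.zero hφ hz]; simp
  have key := Pool.Agent.TH421.AC.small_rel hΩ hm hp H hK hKΩ hφ' hφ0' hε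
  obtain ⟨s, hs, hs0⟩ := (key.and self_mem_nhdsWithin).exists
  exact ⟨s, hs0, hs⟩

end Pool.Agent.Results.MP_4fa179_mp.SmallValues
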